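import Pool.Agent.Q293.HF.Stm

/-!
# Project HF (helper293), job CHAIN: the exact sequence of singular chains of an infinite cyclic
covering
-/

set_option autoImplicit false

open Topology Filter
open scoped LinearAlgebra.Projectivization

namespace Pool.Agent.Q252.HF.CHAIN

open Pool.Agent.Q293.HF Pool.Agent.Helper922.HB

variable {E X : Type} [TopologicalSpace E] [TopologicalSpace X]

theorem zp_succ (g : E ≃ₜ E) (k : ℤ) (e : E) : (g ^ (k + 1)) e = g ((g ^ k) e) := by
  rw [add_comm, zpow_one_add]
  rfl

theorem zp_pred (g : E ≃ₜ E) (k : ℤ) (e : E) : g ((g ^ (k - 1)) e) = (g ^ k) e := by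
  have := zp_succ g (k - 1) e
  rw [sub_add_cancel] at this
  exact this.symm

theorem toC_succ (g : E ≃ₜ E) (k : ℤ) : toC (g ^ (k + 1)) = (toC g).comp (toC (g ^ k)) :=
  ContinuousMap.ext (zp_succ g k)

theorem toC_pred (g : E ≃ₜ E) (k : ℤ) : (toC g).comp (toC (g ^ (k - 1))) = toC (g ^ k) :=
  ContinuousMap.ext (zp_pred g k)

/-- telescoping -/
theorem tele (g : E ≃ₜ E) (n : ℕ) (v : Sing E n →₀ ℤ) (k : ℤ) :
    push (toC (g ^ k)) n v - v ∈ LinearMap.range (push (toC g) n - LinearMap.id) := by
  have h0 : ∀ u : Sing E n →₀ ℤ,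
      push (toC g) n u - u ∈ LinearMap.range (push (toC g) n - LinearMap.id) := fun u => ⟨u, rfl⟩
  induction k using Int.induction_on with
  | zero =>
    have h1 : toC (g ^ (0 : ℤ)) = ContinuousMap.id E := by
      rw [zpow_zero]
      rfl
    rw [h1, push_id, sub_self]
    exact zero_mem _
  | succ k ih =>
    have h2 : push (toC (g ^ ((k : ℤ) + 1))) n v - v =
        (push (toC g) n (push (toC (g ^ (k : ℤ))) n v) - push (toC (g ^ (k : ℤ))) n v) +
          (push (toC (g ^ (k : ℤ))) n v - v) := by
      rw [toC_succ, ← push_push]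
      abel
    rw [h2]
    exact add_mem (h0 _) ih
  | pred k ih =>
    have h2 : push (toC (g ^ (-(k : ℤ) - 1))) n v - v =
        (push (toC (g ^ (-(k : ℤ)))) n v - v) -
          (push (toC g) n (push (toC (g ^ (-(k : ℤ) - 1))) n v) -
            push (toC (g ^ (-(k : ℤ) - 1))) n v) := by
      rw [push_push _ (toC g), toC_pred]
      abel
    rw [h2]
    exact sub_mem ih (h0 _)

/-- CHAIN -/
theorem chain (hL : S_LIFT) : S_CHAIN := by
  intro E X _ _ p g hz A n
  obtain ⟨hl, hu⟩ := hL E X p g hz n
  choose s hs using hl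
  have hsec : ∀ z : Sing X n →₀ ℤ, push p n (Finsupp.lmapDomain ℤ ℤ s z) = z := by
    intro z
    simp only [push, Finsupp.lmapDomain_apply]
    rw [← Finsupp.mapDomain_comp]
    have : (fun σ : Sing E n => p.comp σ) ∘ s = id := funext hs
    rw [this]
    exact Finsupp.mapDomain_id
  refine ⟨fun z => ⟨_, hsec z⟩, fun y hy => ?_, fun y hy => ?_⟩
  · have key : ∀ y : Sing E n →₀ ℤ, y - Finsupp.lmapDomain ℤ ℤ s (push p n y) ∈
        LinearMap.range (push (toC g) n - LinearMap.id) := by
      intro y
      induction y using Finsupp.induction_linear with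
      | zero =>
        rw [map_zero, map_zero, sub_self]
        exact zero_mem _
      | add a b ha hb =>
        rw [map_add, map_add, add_sub_add_comm]
        exact add_mem ha hb
      | single τ c =>
        rw [push_single, Finsupp.lmapDomain_apply, Finsupp.mapDomain_single]
        obtain ⟨k, hk⟩ := hu (s (p.comp τ)) τ (hs _)
        have h1 := tele g n (Finsupp.single (s (p.comp τ)) c) k
        rw [push_single, hk] at h1
        exact h1
    obtain ⟨w, hw⟩ := key y
    refine ⟨w, Finsupp.lmapDomain ℤ ℤ s (push p n y), ?_, ?_⟩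
    · have h1 : Finsupp.lmapDomain ℤ ℤ s (push p n y) ∈
          (SubC A n).map (Finsupp.lmapDomain ℤ ℤ s) := Submodule.mem_map_of_mem hy
      unfold SubC at h1 ⊢
      rw [Finsupp.lmapDomain_supported] at h1
      refine Finsupp.supported_mono ?_ h1
      rintro _ ⟨σ, hσ, rfl⟩
      rintro _ ⟨x, rfl⟩
      show p (s σ x) ∈ A
      have h2 : p (s σ x) = σ x := congrArg (fun f : Sing X n => f x) (hs σ)
      rw [h2]
      exact hσ ⟨x, rfl⟩
    · have h1 : push (toC g) n w - w = y - Finsupp.lmapDomain ℤ ℤ s (push p n y) := hw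
      rw [h1, sub_add_cancel]
  · unfold SubC at hy ⊢
    rw [Finsupp.mem_supported'] at hy ⊢
    intro τ hτ
    by_contra hne
    have hinj : Function.Injective fun σ : Sing E n => (toC g).comp σ := by
      intro σ σ' h
      refine ContinuousMap.ext fun x => ?_
      exact g.injective (congrArg (fun f : Sing E n => f x) h)
    have hout : ∀ k : ℤ, (toC (g ^ k)).comp τ ∉ {σ : Sing E n | Set.range σ ⊆ p ⁻¹' A} := by
      intro k hk
      apply hτ
      rintro _ ⟨x, rfl⟩
      have h1 : p ((g ^ k) (τ x)) ∈ A := hk ⟨x, rfl⟩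
      have h2 : ∀ (k : ℤ) (e : E), p ((g ^ k) e) = p e := by
        intro k e
        induction k using Int.induction_on with
        | zero => rw [zpow_zero]; rfl
        | succ k ih => rw [zp_succ, hz.inv, ih]
        | pred k ih =>
          have h3 := hz.inv ((g ^ (-(k : ℤ) - 1)) e)
          rw [zp_pred, ih] at h3
          exact h3.symm
      rw [h2] at h1
      exact h1
    have hstep : ∀ k : ℤ, y ((toC (g ^ (k + 1))).comp τ) = y ((toC (g ^ k)).comp τ) := by
      intro k
      have h1 := hy _ (hout (k + 1))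
      rw [Finsupp.sub_apply] at h1
      have h2 : (toC (g ^ (k + 1))).comp τ = (toC g).comp ((toC (g ^ k)).comp τ) := by
        rw [toC_succ]
        rfl
      have h3 : push (toC g) n y ((toC g).comp ((toC (g ^ k)).comp τ)) =
          y ((toC (g ^ k)).comp τ) := by
        simp only [push, Finsupp.lmapDomain_apply]
        exact Finsupp.mapDomain_apply hinj y _
      rw [h2, h3] at h1
      rw [h2]
      linarith
    have hall : ∀ k : ℤ, y ((toC (g ^ k)).comp τ) = y τ := by
      intro k
      induction k using Int.induction_on with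
      | zero =>
        have h1 : (toC (g ^ (0 : ℤ))).comp τ = τ := by
          rw [zpow_zero]
          rfl
        rw [h1]
      | succ k ih => rw [hstep, ih]
      | pred k ih =>
        have h1 := hstep (-(k : ℤ) - 1)
        rw [sub_add_cancel] at h1
        rw [← h1, ih]
    have hkinj : Function.Injective fun k : ℤ => (toC (g ^ k)).comp τ := by
      intro k l hkl
      have h1 : (g ^ k) (τ (Sc.vert n 0)) = (g ^ l) (τ (Sc.vert n 0)) :=
        congrArg (fun f : Sing E n => f (Sc.vert n 0)) hkl
      have h2 : (g ^ (-l + k)) (τ (Sc.vert n 0)) = τ (Sc.vert n 0) := by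
        have h3 : (g ^ (-l + k)) (τ (Sc.vert n 0)) = (g ^ (-l)) ((g ^ k) (τ (Sc.vert n 0))) := by
          rw [zpow_add]
          rfl
        rw [h3, h1]
        have h4 : (g ^ (-l)) ((g ^ l) (τ (Sc.vert n 0))) = (g ^ (-l + l)) (τ (Sc.vert n 0)) := by
          rw [zpow_add]
          rfl
        rw [h4, neg_add_cancel, zpow_zero]
        rfl
      have h5 := hz.free _ _ h2
      omega
    have hinf := Set.infinite_of_injective_forall_mem (s := (y.support : Set (Sing E n))) hkinj
      (fun k => by
        rw [Finset.mem_coe, Finsupp.mem_support_iff, hall k]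
        exact hne)
    exact hinf y.support.finite_toSet

end Pool.Agent.Q252.HF.CHAIN
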