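import Pool.Agent.Q293.HF.Stm

/-!
# Project HF (helper293), job COVH: infinite cyclic coverings and another automorphism
-/

set_option autoImplicit false

open Topology Filter
open scoped LinearAlgebra.Projectivization

namespace Pool.Agent.Q252.HF.COVH

open Pool.Agent.Q293.HF Pool.Agent.Helper922.HB

section basic

variable {E F : Type} [TopologicalSpace E] [TopologicalSpace F]

theorem push_comm {G : Type} [TopologicalSpace G] {a : C(E, F)} {b : C(F, G)} {F' : Type}
    [TopologicalSpace F'] {c : C(E, F')} {d : C(F', G)} (h : b.comp a = d.comp c) (n : ℕ)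
    (z : Sing E n →₀ ℤ) : push b n (push a n z) = push d n (push c n z) := by
  rw [push_push, push_push, h]

theorem sub_push {B : Set E} {B' : Set F} {f : C(E, F)} (hf : ∀ x ∈ B, f x ∈ B') (n : ℕ)
    {z : Sing E n →₀ ℤ} (hz : z ∈ SubC B n) : push f n z ∈ SubC B' n := by
  have h1 : push f n z ∈ (SubC B n).map (Finsupp.lmapDomain ℤ ℤ (fun σ : Sing E n => f.comp σ)) :=
    Submodule.mem_map_of_mem hz
  unfold SubC at h1 ⊢
  rw [Finsupp.lmapDomain_supported] at h1
  refine Finsupp.supported_mono ?_ h1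
  rintro _ ⟨σ, hσ, rfl⟩
  rintro _ ⟨x, rfl⟩
  exact hf _ (hσ ⟨x, rfl⟩)

theorem sub_bdry {B : Set E} (n : ℕ) {z : Sing E (n + 1) →₀ ℤ} (hz : z ∈ SubC B (n + 1)) :
    bdry E n z ∈ SubC B n := by
  obtain ⟨u, hu⟩ := mvx_lift B (n + 1) z hz
  rw [← hu, bdry_push]
  exact mvx_support B n _

theorem PP_apply (g : C(E, E)) (n : ℕ) (z : Sing E n →₀ ℤ) :
    PP g n z = z - push g n z + push g n (push g n z) := rfl

theorem PP_sub {B : Set E} {g : C(E, E)} (hg : ∀ x ∈ B, g x ∈ B) (n : ℕ) {z : Sing E n →₀ ℤ}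
    (hz : z ∈ SubC B n) : PP g n z ∈ SubC B n := by
  rw [PP_apply]
  exact add_mem (sub_mem hz (sub_push hg n hz)) (sub_push hg n (sub_push hg n hz))

theorem PP_Bdy (g : C(E, E)) (n : ℕ) {z : Sing E n →₀ ℤ} (hz : z ∈ Bdy E n) :
    PP g n z ∈ Bdy E n := by
  rw [PP_apply]
  exact add_mem (sub_mem hz (push_mem_Bdy g n _ hz)) (push_mem_Bdy g n _ (push_mem_Bdy g n _ hz))

theorem PP_RBdy {B : Set E} {g : C(E, E)} (hg : ∀ x ∈ B, g x ∈ B) (n : ℕ) {z : Sing E n →₀ ℤ}
    (hz : z ∈ RBdy B n) : PP g n z ∈ RBdy B n := by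
  unfold RBdy at hz ⊢
  obtain ⟨x, hx, y, hy, rfl⟩ := Submodule.mem_sup.1 hz
  rw [map_add]
  exact Submodule.add_mem_sup (PP_Bdy g n hx) (PP_sub hg n hy)

theorem PP_bdry (g : C(E, E)) (n : ℕ) (z : Sing E (n + 1) →₀ ℤ) :
    bdry E n (PP g (n + 1) z) = PP g n (bdry E n z) := by
  rw [PP_apply, PP_apply, map_add, map_sub, bdry_push, bdry_push, bdry_push]

theorem PP_push {a : C(E, F)} {g : C(E, E)} {g' : C(F, F)} (h : a.comp g = g'.comp a) (n : ℕ)
    (z : Sing E n →₀ ℤ) : push a n (PP g n z) = PP g' n (push a n z) := by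
  rw [PP_apply, PP_apply, map_add, map_sub, push_comm h, push_comm h, push_comm h]

theorem push_RBdy {B : Set E} {B' : Set F} {f : C(E, F)} (hf : ∀ x ∈ B, f x ∈ B') (n : ℕ)
    {z : Sing E n →₀ ℤ} (hz : z ∈ RBdy B n) : push f n z ∈ RBdy B' n := by
  unfold RBdy at hz ⊢
  obtain ⟨x, hx, y, hy, rfl⟩ := Submodule.mem_sup.1 hz
  rw [map_add]
  exact Submodule.add_mem_sup (push_mem_Bdy f n _ hx) (sub_push hf n hy)

end basic

theorem iter_mem {M : Type} {S : Set M} {f : M → M} (h : ∀ x ∈ S, f x ∈ S) (k : ℕ) {x : M}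
    (hx : x ∈ S) : f^[k] x ∈ S := by
  induction k with
  | zero => exact hx
  | succ k ih =>
    rw [Function.iterate_succ_apply']
    exact h _ ih

theorem iter_comm {M N : Type} {F : M → N} {f : M → M} {f' : N → N} (h : ∀ x, F (f x) = f' (F x))
    (k : ℕ) (x : M) : F (f^[k] x) = f'^[k] (F x) := by
  induction k with
  | zero => rfl
  | succ k ih => rw [Function.iterate_succ_apply', Function.iterate_succ_apply', h, ih]

/-- COVH -/
theorem covh (hch : S_CHAIN) : S_COVH := by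
  intro E X _ _ p h hz A g g' k hpg hgh hA hK
  have hB : ∀ e ∈ p ⁻¹' A, toC g e ∈ p ⁻¹' A := by
    intro e he
    show p (g e) ∈ A
    rw [hpg, hA]
    exact he
  have hBh : ∀ e ∈ p ⁻¹' A, toC h e ∈ p ⁻¹' A := by
    intro e he
    show p (h e) ∈ A
    rw [hz.inv]
    exact he
  have hA' : ∀ x ∈ A, toC g' x ∈ A := fun x hx => (hA x).2 hx
  have hp : ∀ e ∈ p ⁻¹' A, p e ∈ A := fun e he => he
  have cpg : p.comp (toC g) = (toC g').comp p := ContinuousMap.ext hpg
  have cgh : (toC h).comp (toC g) = (toC g).comp (toC h) := ContinuousMap.ext fun e => (hgh e).symm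
  have cph : ∀ (m : ℕ) (v : Sing E m →₀ ℤ), push p m (push (toC h) m v) = push p m v := by
    intro m v
    rw [push_push]
    congr 1
    congr 1
    exact ContinuousMap.ext hz.inv
  -- the polynomials
  have e1 : ∀ (m j : ℕ) (v : Sing E m →₀ ℤ), push p m ((⇑(PP (toC g) m))^[j] v) =
      (⇑(PP (toC g') m))^[j] (push p m v) := fun m j v => iter_comm (fun x => PP_push cpg m x) j v
  have e2 : ∀ (m j : ℕ) (v : Sing E m →₀ ℤ), push (toC h) m ((⇑(PP (toC g) m))^[j] v) =
      (⇑(PP (toC g) m))^[j] (push (toC h) m v) := fun m j v =>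
    iter_comm (fun x => PP_push cgh m x) j v
  have e3 : ∀ (m j : ℕ) (v : Sing E (m + 1) →₀ ℤ), bdry E m ((⇑(PP (toC g) (m + 1)))^[j] v) =
      (⇑(PP (toC g) m))^[j] (bdry E m v) := fun m j v => iter_comm (fun x => PP_bdry _ m x) j v
  have e4 : ∀ (m j : ℕ) (v : Sing E m →₀ ℤ), v ∈ SubC (p ⁻¹' A) m →
      (⇑(PP (toC g) m))^[j] v ∈ SubC (p ⁻¹' A) m := fun m j v hv =>
    iter_mem (S := (SubC (p ⁻¹' A) m : Set (Sing E m →₀ ℤ))) (fun x hx => PP_sub hB m hx) j hv
  have e5 : ∀ (m j : ℕ) (v : Sing X m →₀ ℤ), v ∈ RBdy A m →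
      (⇑(PP (toC g') m))^[j] v ∈ RBdy A m := fun m j v hv =>
    iter_mem (S := (RBdy A m : Set (Sing X m →₀ ℤ))) (fun x hx => PP_RBdy hA' m hx) j hv
  intro n
  cases n with
  | zero =>
    intro z _
    obtain ⟨y, rfl⟩ := (hch E X p h hz A 0).1 z
    have h1 := push_RBdy hp 0 (hK 0 y Submodule.mem_top)
    rw [e1] at h1
    rw [two_mul, Function.iterate_add_apply]
    exact e5 0 k _ h1
  | succ n =>
    intro z hzc
    obtain ⟨y, rfl⟩ := (hch E X p h hz A (n + 1)).1 z
    have h1 : push p n (bdry E n y) ∈ SubC A n := by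
      rw [← bdry_push]
      exact hzc
    obtain ⟨w, b, hb, hy⟩ := (hch E X p h hz A n).2.1 (bdry E n y) h1
    have hw : w ∈ RCyc (p ⁻¹' A) n := by
      cases n with
      | zero => exact Submodule.mem_top
      | succ m =>
        show bdry E m w ∈ SubC (p ⁻¹' A) m
        apply (hch E X p h hz A m).2.2
        have h2 := congrArg (bdry E m) hy
        rw [bdry_bdry, map_add, map_sub, bdry_push] at h2
        have h3 : push (toC h) m (bdry E m w) - bdry E m w = -bdry E m b :=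
          eq_neg_of_add_eq_zero_left h2.symm
        rw [h3]
        exact neg_mem (sub_bdry m hb)
    obtain ⟨_, ⟨v, rfl⟩, b1, hb1, hvb⟩ := Submodule.mem_sup.1 (hK n w hw)
    set y' : Sing E (n + 1) →₀ ℤ := (⇑(PP (toC g) (n + 1)))^[k] y - (push (toC h) (n + 1) v - v)
      with hy'
    have h4 : y' ∈ RCyc (p ⁻¹' A) (n + 1) := by
      show bdry E n y' ∈ SubC (p ⁻¹' A) n
      have h5 : bdry E n y' = push (toC h) n b1 - b1 + (⇑(PP (toC g) n))^[k] b := by
        rw [hy', map_sub, map_sub, e3, hy, iterate_map_add, iterate_map_sub, ← e2, ← hvb, map_add,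
          bdry_push]
        abel
      rw [h5]
      exact add_mem (sub_mem (sub_push hBh n hb1) hb1) (e4 n k b hb)
    have h6 := push_RBdy hp (n + 1) (hK (n + 1) y' h4)
    rw [e1] at h6
    have h7 : push p (n + 1) y' = (⇑(PP (toC g') (n + 1)))^[k] (push p (n + 1) y) := by
      rw [hy', map_sub, map_sub, cph, sub_self, sub_zero, e1]
    rw [h7] at h6
    rw [two_mul, Function.iterate_add_apply]
    exact h6

end Pool.Agent.Q252.HF.COVH
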