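import Pool.Agent.Q293.HF.Stm

/-!
# Project HF (helper293), job RG: the two ranges
-/

set_option autoImplicit false

open Topology Filter
open scoped LinearAlgebra.Projectivization

namespace Pool.Agent.Q252.HF.RG

open Pool.Agent.Q293.HF Pool.Agent.Helper922.HB

variable {n : ℕ} {φ : Fin 3 → ℂ → Fin n → ℂ}

theorem Ph_smul (z l : ℂ) (X : Fin 3 → ℂ) : Ph φ z (l • X) = l • Ph φ z X := by
  funext p
  simp only [Ph, Pi.smul_apply, smul_eq_mul]
  ring

/-- equality of points with proportional coordinates -/
theorem mk_eq {z : ℂ} {X X' : Fin 3 → ℂ} {h : Ph φ z X ≠ 0} {h' : Ph φ z X' ≠ 0} {l : ℂ}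
    (hl : l • X' = X) :
    Projectivization.mk ℂ (Ph φ z X) h = Projectivization.mk ℂ (Ph φ z X') h' := by
  rw [Projectivization.mk_eq_mk_iff']
  exact ⟨l, by rw [← Ph_smul, hl]⟩

/-- RG -/
theorem rg : S_RG := by
  intro n φ h
  constructor
  · rintro ⟨⟨t, P⟩, z, X, hPh, hz, hX, hWe, hP⟩
    simp only at hWe hP
    by_cases h0 : X 0 = 0
    · right
      have h1 : X 1 = 0 := by
        unfold We at hWe
        rw [h0] at hWe
        have : X 1 ^ 3 = 0 := by linear_combination -hWe
        exact pow_eq_zero_iff (by norm_num) |>.1 this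
      refine ⟨(⟨z, hz⟩, ⟨(t, 0), by norm_num⟩), ?_⟩
      apply Subtype.ext
      refine Prod.ext rfl ?_
      simp only
      rw [hP]
      symm
      refine mk_eq (l := X 2) ?_
      funext i
      fin_cases i
      · simp [vecI, h0]
      · simp [vecI, h1]
      · simp [vecI]
    · left
      refine ⟨(⟨z, hz⟩, (X 1 / X 0, X 2 / X 0)), ?_⟩
      apply Subtype.ext
      refine Prod.ext ?_ ?_
      · simp only [ptA]
        unfold We at hWe
        field_simp
        linear_combination hWe
      · simp only
        rw [hP]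
        symm
        refine mk_eq (l := X 0) ?_
        funext i
        fin_cases i
        · simp
        · simp only [Pi.smul_apply, smul_eq_mul]
          exact mul_div_cancel₀ _ h0
        · simp only [Pi.smul_apply, smul_eq_mul]
          exact mul_div_cancel₀ _ h0
  · intro e
    constructor
    · rintro ⟨e', he'⟩ hw
      have h1 := congrArg (fun p : XX φ => p.1.2) he'
      simp only [ptA, ptI] at h1
      rw [Projectivization.mk_eq_mk_iff'] at h1
      obtain ⟨a, ha⟩ := h1
      apply h.ne 0 e'.1.1 e'.1.2
      funext j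
      have h2 := congrFun ha (0, j)
      simp only [Ph, Pi.smul_apply, smul_eq_mul, vecI, hw] at h2
      simpa using h2.symm
    · intro hw
      have hc := sq_ne e.2
      refine ⟨(e.1, (e.2.1.2⁻¹ ^ 2, (1 + e.2.1.1 * e.2.1.2 ^ 6) ^ (1 / 2 : ℂ) * e.2.1.2⁻¹ ^ 3)), ?_⟩
      apply Subtype.ext
      refine Prod.ext ?_ ?_
      · simp only [ptA, ptI]
        rw [mul_pow, hc]
        field_simp
        ring
      · simp only [ptA, ptI]
        symm
        refine mk_eq (l := e.2.1.2 ^ 3) ?_
        funext i
        fin_cases i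
        · simp [vecI]
        · simp [vecI]
          field_simp
        · simp [vecI]
          field_simp

end Pool.Agent.Q252.HF.RG
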